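import Pool.Agent.W745.RW.Stm

/-! RW-DC: the div-curl lemma on a ball. -/
set_option autoImplicit false
open MeasureTheory Filter Topology Complex
open scoped ContDiff

namespace Pool.Agent.W750.RW

open Pool.Agent.W745.RW

theorem cont_of (B : Set ℂ) (hB : IsOpen B) (ψ : ℂ → ℝ) (hψ : TF B ψ) (g : ℂ → ℂ)
    (hg : ContinuousOn g B) : Continuous (fun z => (ψ z : ℂ) * g z) := by
  refine continuous_of_tsupport fun z hz => ?_
  have h1 : z ∈ tsupport (fun z => (ψ z : ℂ)) := tsupport_mul_subset_left hz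
  have h2 : tsupport (fun z => (ψ z : ℂ)) ⊆ tsupport ψ := by
    refine closure_mono fun w hw => ?_
    rw [Function.mem_support] at hw ⊢
    exact fun h => hw (by simp [h])
  have h3 : z ∈ B := hψ.2.2 (h2 h1)
  exact (Complex.continuous_ofReal.comp hψ.1.continuous).continuousAt.mul
    (hg.continuousAt (hB.mem_nhds h3))

theorem supp_of (B : Set ℂ) (ψ : ℂ → ℝ) (hψ : TF B ψ) (g : ℂ → ℂ) :
    HasCompactSupport (fun z => (ψ z : ℂ) * g z) := by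
  refine HasCompactSupport.intro hψ.2.1 fun z hz => ?_
  rw [image_eq_zero_of_notMem_tsupport hz]
  simp

theorem int_of (B : Set ℂ) (hB : IsOpen B) (ψ : ℂ → ℝ) (hψ : TF B ψ) (g : ℂ → ℂ)
    (hg : ContinuousOn g B) : Integrable (fun z => (ψ z : ℂ) * g z) :=
  (cont_of B hB ψ hψ g hg).integrable_of_hasCompactSupport (supp_of B ψ hψ g)

theorem tf_d (B : Set ℂ) (φ : ℂ → ℝ) (hφ : TF B φ) (v : ℂ) :
    TF B (fun z => fderiv ℝ φ z v) := by
  refine ⟨?_, hφ.2.1.fderiv_apply ℝ v, (tsupport_fderiv_apply_subset ℝ v).trans hφ.2.2⟩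
  exact (hφ.1.fderiv_right (m := ∞) (by simp)).clm_apply contDiff_const

theorem fd_ofReal (φ : ℂ → ℝ) (hφ : ContDiff ℝ ∞ φ) (z v : ℂ) :
    fderiv ℝ (fun w => (φ w : ℂ)) z v = ((fderiv ℝ φ z v : ℝ) : ℂ) := by
  have h1 : HasFDerivAt φ (fderiv ℝ φ z) z :=
    (hφ.differentiable (by simp) z).hasFDerivAt
  have h2 := (Complex.ofRealCLM.hasFDerivAt (x := φ z)).comp z h1
  have h3 : fderiv ℝ (fun w => (φ w : ℂ)) z = Complex.ofRealCLM.comp (fderiv ℝ φ z) := h2.fderiv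
  rw [h3]
  rfl

theorem contOn_fd (B : Set ℂ) (hB : IsOpen B) (g : ℂ → ℂ) (hg : ContDiffOn ℝ ∞ g B) (v : ℂ) :
    ContinuousOn (fun z => fderiv ℝ g z v) B :=
  (hg.continuousOn_fderiv_of_isOpen hB (by simp)).clm_apply continuousOn_const

theorem ibp (B : Set ℂ) (hB : IsOpen B) (φ : ℂ → ℝ) (hφ : TF B φ) (g : ℂ → ℂ)
    (hg : ContDiffOn ℝ ∞ g B) (v : ℂ) :
    ∫ z, (φ z : ℂ) * fderiv ℝ g z v = - ∫ z, ((fderiv ℝ φ z v : ℝ) : ℂ) * g z := by
  have h := integral_mul_fderiv_eq_neg_fderiv_mul_of_integrable (μ := (volume : Measure ℂ))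
    (f := fun z => (φ z : ℂ)) (g := g) (v := v) ?_ ?_ ?_ ?_ ?_
  · rw [h]
    congr 1
    refine integral_congr_ae (Filter.Eventually.of_forall fun z => ?_)
    show fderiv ℝ (fun z => (φ z : ℂ)) z v * g z = _
    rw [fd_ofReal φ hφ.1]
  · have := int_of B hB _ (tf_d B φ hφ v) g hg.continuousOn
    refine this.congr (Filter.Eventually.of_forall fun z => ?_)
    show _ = fderiv ℝ (fun z => (φ z : ℂ)) z v * g z
    rw [fd_ofReal φ hφ.1]
  · exact int_of B hB φ hφ _ (contOn_fd B hB g hg v)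
  · exact int_of B hB φ hφ g hg.continuousOn
  · intro z _
    exact (Complex.ofRealCLM.differentiable.comp (hφ.1.differentiable (by simp))) z
  · intro z hz
    have h2 : tsupport (fun z => (φ z : ℂ)) ⊆ tsupport φ := by
      refine closure_mono fun w hw => ?_
      rw [Function.mem_support] at hw ⊢
      exact fun h => hw (by simp [h])
    have h3 : z ∈ B := hφ.2.2 (h2 hz)
    exact (hg.contDiffAt (hB.mem_nhds h3)).differentiableAt (by simp)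

theorem core (B : Set ℂ) (hB : IsOpen B) (φ : ℂ → ℝ) (hφ : TF B φ) (E1 E2 F1 F2 χ : ℂ → ℂ)
    (hE1 : ContDiffOn ℝ ∞ E1 B) (hE2 : ContDiffOn ℝ ∞ E2 B) (hχ : ContDiffOn ℝ ∞ χ B)
    (hdiv : ∀ z ∈ B, dx E1 z + dy E2 z = 0)
    (hst : ∀ z ∈ B, dy χ z = F1 z ∧ dx χ z = - F2 z) (m : ℂ) :
    ∫ z, (φ z : ℂ) * (E1 z * F2 z - E2 z * F1 z) =
      ∫ z, (((fderiv ℝ φ z 1 : ℝ) : ℂ) * (E1 z * (χ z - m)) +
        ((fderiv ℝ φ z I : ℝ) : ℂ) * (E2 z * (χ z - m))) := by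
  have hg1 : ContDiffOn ℝ ∞ (fun z => E1 z * (χ z - m)) B := hE1.mul (hχ.sub contDiffOn_const)
  have hg2 : ContDiffOn ℝ ∞ (fun z => E2 z * (χ z - m)) B := hE2.mul (hχ.sub contDiffOn_const)
  have h1 := ibp B hB φ hφ _ hg1 1
  have h2 := ibp B hB φ hφ _ hg2 I
  have i1 := int_of B hB φ hφ _ (contOn_fd B hB _ hg1 1)
  have i2 := int_of B hB φ hφ _ (contOn_fd B hB _ hg2 I)
  have j1 := int_of B hB _ (tf_d B φ hφ 1) _ hg1.continuousOn
  have j2 := int_of B hB _ (tf_d B φ hφ I) _ hg2.continuousOn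
  rw [integral_add j1 j2]
  have e1 : ∫ z, ((fderiv ℝ φ z 1 : ℝ) : ℂ) * (E1 z * (χ z - m)) =
      - ∫ z, (φ z : ℂ) * fderiv ℝ (fun z => E1 z * (χ z - m)) z 1 := by rw [h1, neg_neg]
  have e2 : ∫ z, ((fderiv ℝ φ z I : ℝ) : ℂ) * (E2 z * (χ z - m)) =
      - ∫ z, (φ z : ℂ) * fderiv ℝ (fun z => E2 z * (χ z - m)) z I := by rw [h2, neg_neg]
  rw [e1, e2, ← neg_add, ← integral_add i1 i2, ← integral_neg]
  refine integral_congr_ae (Filter.Eventually.of_forall fun z => ?_)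
  show (φ z : ℂ) * (E1 z * F2 z - E2 z * F1 z) =
    -((φ z : ℂ) * fderiv ℝ (fun z => E1 z * (χ z - m)) z 1 +
      (φ z : ℂ) * fderiv ℝ (fun z => E2 z * (χ z - m)) z I)
  by_cases hz : z ∈ B
  · have dE1 := ((hE1.contDiffAt (hB.mem_nhds hz)).differentiableAt (by simp)).hasFDerivAt
    have dE2 := ((hE2.contDiffAt (hB.mem_nhds hz)).differentiableAt (by simp)).hasFDerivAt
    have dχ := ((hχ.contDiffAt (hB.mem_nhds hz)).differentiableAt (by simp)).hasFDerivAt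
    have k1 := (dE1.mul (dχ.sub_const m)).fderiv
    have k2 := (dE2.mul (dχ.sub_const m)).fderiv
    have k1' : fderiv ℝ (fun z => E1 z * (χ z - m)) z 1 = E1 z * dx χ z + (χ z - m) * dx E1 z := by
      have : fderiv ℝ (fun z => E1 z * (χ z - m)) z = _ := k1
      rw [this]
      rfl
    have k2' : fderiv ℝ (fun z => E2 z * (χ z - m)) z I = E2 z * dy χ z + (χ z - m) * dy E2 z := by
      have : fderiv ℝ (fun z => E2 z * (χ z - m)) z = _ := k2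
      rw [this]
      rfl
    rw [k1', k2', (hst z hz).1, (hst z hz).2]
    have h3 := hdiv z hz
    linear_combination ((φ z : ℂ) * (χ z - m)) * h3
  · have : φ z = 0 := image_eq_zero_of_notMem_tsupport fun h => hz (hφ.2.2 h)
    rw [this]
    simp

theorem bound (B : Set ℂ) (φ : ℂ → ℝ) (hφ : TF B φ) (E1 E2 χ : ℂ → ℂ)
    (hE1 : ContinuousOn E1 B) (hE2 : ContinuousOn E2 B) (hχ : ContinuousOn χ B) (m : ℂ)
    (M t : ℝ) (hM : 0 ≤ M) (ht : 0 < t)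
    (hM1 : ∀ z, |fderiv ℝ φ z 1| ≤ M) (hM2 : ∀ z, |fderiv ℝ φ z I| ≤ M) :
    ‖∫ z, (((fderiv ℝ φ z 1 : ℝ) : ℂ) * (E1 z * (χ z - m)) +
        ((fderiv ℝ φ z I : ℝ) : ℂ) * (E2 z * (χ z - m)))‖ ≤
      M * (1 / t * (∫ z in tsupport φ, ‖χ z - m‖ ^ 2) +
        t / 2 * ∫ z in tsupport φ, (‖E1 z‖ ^ 2 + ‖E2 z‖ ^ 2)) := by
  have hK : IsCompact (tsupport φ) := hφ.2.1
  have hKB := hφ.2.2
  have z1 : ∀ z, z ∉ tsupport φ → ((fderiv ℝ φ z 1 : ℝ) : ℂ) * (E1 z * (χ z - m)) +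
        ((fderiv ℝ φ z I : ℝ) : ℂ) * (E2 z * (χ z - m)) = 0 := by
    intro z hz
    rw [fderiv_of_notMem_tsupport ℝ hz]
    simp
  rw [← setIntegral_eq_integral_of_forall_compl_eq_zero z1]
  have c1 : ContinuousOn (fun z => ‖χ z - m‖ ^ 2) (tsupport φ) :=
    ((hχ.mono hKB).sub continuousOn_const).norm.pow 2
  have c2 : ContinuousOn (fun z => ‖E1 z‖ ^ 2 + ‖E2 z‖ ^ 2) (tsupport φ) :=
    ((hE1.mono hKB).norm.pow 2).add ((hE2.mono hKB).norm.pow 2)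
  have i1 := c1.integrableOn_compact (μ := (volume : Measure ℂ)) hK
  have i2 := c2.integrableOn_compact (μ := (volume : Measure ℂ)) hK
  have e1 : M * (1 / t * (∫ z in tsupport φ, ‖χ z - m‖ ^ 2) +
        t / 2 * ∫ z in tsupport φ, (‖E1 z‖ ^ 2 + ‖E2 z‖ ^ 2)) =
      ∫ z in tsupport φ, M * (1 / t * ‖χ z - m‖ ^ 2 + t / 2 * (‖E1 z‖ ^ 2 + ‖E2 z‖ ^ 2)) := by
    rw [integral_const_mul, integral_add (i1.const_mul _) (i2.const_mul _), integral_const_mul,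
      integral_const_mul]
  rw [e1]
  refine norm_integral_le_of_norm_le (((i1.const_mul _).add (i2.const_mul _)).const_mul M) ?_
  refine Filter.Eventually.of_forall fun z => ?_
  have h1 := hM1 z
  have h2 := hM2 z
  have n1 : ‖((fderiv ℝ φ z 1 : ℝ) : ℂ) * (E1 z * (χ z - m)) +
        ((fderiv ℝ φ z I : ℝ) : ℂ) * (E2 z * (χ z - m))‖ ≤
      M * (‖E1 z‖ * ‖χ z - m‖) + M * (‖E2 z‖ * ‖χ z - m‖) := by
    refine (norm_add_le _ _).trans ?_
    rw [norm_mul, norm_mul, norm_mul, norm_mul, Complex.norm_real, Complex.norm_real,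
      Real.norm_eq_abs, Real.norm_eq_abs]
    gcongr
  refine n1.trans ?_
  have n2 : ‖E1 z‖ * ‖χ z - m‖ + ‖E2 z‖ * ‖χ z - m‖ ≤
      1 / t * ‖χ z - m‖ ^ 2 + t / 2 * (‖E1 z‖ ^ 2 + ‖E2 z‖ ^ 2) := by
    have q1 : 0 ≤ (‖χ z - m‖ - t * ‖E1 z‖) ^ 2 := sq_nonneg _
    have q2 : 0 ≤ (‖χ z - m‖ - t * ‖E2 z‖) ^ 2 := sq_nonneg _
    have q3 : 1 / t * ‖χ z - m‖ ^ 2 + t / 2 * (‖E1 z‖ ^ 2 + ‖E2 z‖ ^ 2) -
        (‖E1 z‖ * ‖χ z - m‖ + ‖E2 z‖ * ‖χ z - m‖) =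
        ((‖χ z - m‖ - t * ‖E1 z‖) ^ 2 + (‖χ z - m‖ - t * ‖E2 z‖) ^ 2) / (2 * t) := by
      field_simp
      ring
    have q4 : 0 ≤ ((‖χ z - m‖ - t * ‖E1 z‖) ^ 2 + (‖χ z - m‖ - t * ‖E2 z‖) ^ 2) / (2 * t) := by
      positivity
    linarith
  calc M * (‖E1 z‖ * ‖χ z - m‖) + M * (‖E2 z‖ * ‖χ z - m‖)
      = M * (‖E1 z‖ * ‖χ z - m‖ + ‖E2 z‖ * ‖χ z - m‖) := by ring
    _ ≤ _ := mul_le_mul_of_nonneg_left n2 hM

theorem zero (hSt : SSt) (hRe : SRe) (c : ℂ) (r : ℝ) (E1 E2 F1 F2 : ℕ → ℂ → ℂ)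
    (hs : ∀ n, ContDiffOn ℝ ∞ (E1 n) (Metric.ball c r) ∧ ContDiffOn ℝ ∞ (E2 n) (Metric.ball c r) ∧
      ContDiffOn ℝ ∞ (F1 n) (Metric.ball c r) ∧ ContDiffOn ℝ ∞ (F2 n) (Metric.ball c r))
    (hd : ∀ n, ∀ z ∈ Metric.ball c r,
      dx (E1 n) z + dy (E2 n) z = 0 ∧ dx (F1 n) z + dy (F2 n) z = 0)
    (hE : ∀ K : Set ℂ, IsCompact K → K ⊆ Metric.ball c r → ∃ C : ℝ, ∀ᶠ n in atTop,
      ∫ z in K, (‖E1 n z‖ ^ 2 + ‖E2 n z‖ ^ 2) ≤ C)
    (hF : ∀ K : Set ℂ, IsCompact K → K ⊆ Metric.ball c r → ∃ C : ℝ, ∀ᶠ n in atTop,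
      ∫ z in K, (‖F2 n z‖ ^ 2 + ‖F1 n z‖ ^ 2) ≤ C)
    (hw : ∀ ψ, TF (Metric.ball c r) ψ → Null (fun n => ∫ z, (ψ z : ℂ) * F1 n z) ∧
      Null (fun n => ∫ z, (ψ z : ℂ) * F2 n z))
    (φ : ℂ → ℝ) (hφ : TF (Metric.ball c r) φ) :
    Null (fun n => ∫ z, (φ z : ℂ) * (E1 n z * F2 n z - E2 n z * F1 n z)) := by
  have hB : IsOpen (Metric.ball c r) := Metric.isOpen_ball
  have hχ0 := fun n => hSt c r (F1 n) (F2 n) (hs n).2.2.1 (hs n).2.2.2 (fun z hz => (hd n z hz).2)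
  choose χ hχ1 hχ2 using hχ0
  have R := hRe c r χ hχ1 ?_ ?_
  rotate_left
  · intro K hK hKB
    obtain ⟨C, hC⟩ := hF K hK hKB
    refine ⟨C, hC.mono fun n hn => ?_⟩
    refine le_trans (le_of_eq ?_) hn
    refine setIntegral_congr_fun hK.measurableSet fun z hz => ?_
    show ‖dx (χ n) z‖ ^ 2 + ‖dy (χ n) z‖ ^ 2 = _
    rw [(hχ2 n z (hKB hz)).1, (hχ2 n z (hKB hz)).2, norm_neg]
  · intro ψ hψ
    obtain ⟨h1, h2⟩ := hw ψ hψ
    have hz0 : ∀ z, z ∉ Metric.ball c r → ψ z = 0 := fun z hz =>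
      image_eq_zero_of_notMem_tsupport fun h => hz (hψ.2.2 h)
    constructor
    · have h3 : Null (fun n => - ∫ z, (ψ z : ℂ) * F2 n z) := by
        have := Filter.Tendsto.neg h2
        rw [neg_zero] at this
        exact this
      refine Filter.Tendsto.congr (fun n => ?_) h3
      rw [← integral_neg]
      refine integral_congr_ae (Filter.Eventually.of_forall fun z => ?_)
      show -((ψ z : ℂ) * F2 n z) = (ψ z : ℂ) * dx (χ n) z
      by_cases hz : z ∈ Metric.ball c r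
      · rw [(hχ2 n z hz).2]; ring
      · rw [hz0 z hz]; simp
    · refine Filter.Tendsto.congr (fun n => ?_) h1
      refine integral_congr_ae (Filter.Eventually.of_forall fun z => ?_)
      show (ψ z : ℂ) * F1 n z = (ψ z : ℂ) * dy (χ n) z
      by_cases hz : z ∈ Metric.ball c r
      · rw [(hχ2 n z hz).1]
      · rw [hz0 z hz]; simp
  have hK : IsCompact (tsupport φ) := hφ.2.1
  have hKB := hφ.2.2
  obtain ⟨C0, hC0⟩ := hE _ hK hKB
  obtain ⟨M1, hM1⟩ := (tf_d _ φ hφ 1).1.continuous.bounded_above_of_compact_support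
    (tf_d _ φ hφ 1).2.1
  obtain ⟨M2, hM2⟩ := (tf_d _ φ hφ I).1.continuous.bounded_above_of_compact_support
    (tf_d _ φ hφ I).2.1
  set M : ℝ := max 0 (max M1 M2) with hMdef
  set C : ℝ := max 0 C0 with hCdef
  have hM0 : 0 ≤ M := le_max_left _ _
  have hCn : 0 ≤ C := le_max_left _ _
  have hM1' : ∀ z, |fderiv ℝ φ z 1| ≤ M := fun z =>
    (hM1 z).trans ((le_max_left _ _).trans (le_max_right _ _))
  have hM2' : ∀ z, |fderiv ℝ φ z I| ≤ M := fun z =>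
    (hM2 z).trans ((le_max_right _ _).trans (le_max_right _ _))
  unfold Null
  rw [NormedAddGroup.tendsto_nhds_zero]
  intro ε hε
  set t : ℝ := ε / (M * C + 1) with htdef
  have ht : 0 < t := by positivity
  set δ : ℝ := t * ε / (2 * (M + 1)) with hδdef
  have hδ : 0 < δ := by positivity
  filter_upwards [R _ hK hKB δ hδ, hC0] with n hn hCn'
  obtain ⟨m, hm⟩ := hn
  rw [core _ hB φ hφ (E1 n) (E2 n) (F1 n) (F2 n) (χ n) (hs n).1 (hs n).2.1 (hχ1 n)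
    (fun z hz => (hd n z hz).1) (hχ2 n) m]
  refine lt_of_le_of_lt (bound _ φ hφ (E1 n) (E2 n) (χ n) (hs n).1.continuousOn
    (hs n).2.1.continuousOn (hχ1 n).continuousOn m M t hM0 ht hM1' hM2') ?_
  have hCC : ∫ z in tsupport φ, (‖E1 n z‖ ^ 2 + ‖E2 n z‖ ^ 2) ≤ C := hCn'.trans (le_max_right _ _)
  have b1 : M * (1 / t * (∫ z in tsupport φ, ‖χ n z - m‖ ^ 2) +
      t / 2 * ∫ z in tsupport φ, (‖E1 n z‖ ^ 2 + ‖E2 n z‖ ^ 2)) ≤
      M * (1 / t * δ + t / 2 * C) := by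
    gcongr
  refine lt_of_le_of_lt b1 ?_
  have b2 : M * (1 / t * δ) = M / (M + 1) * (ε / 2) := by
    rw [hδdef]
    field_simp
  have b3 : M * (t / 2 * C) = (M * C) / (M * C + 1) * (ε / 2) := by
    rw [htdef]
    field_simp
  rw [mul_add, b2, b3]
  have b4 : M / (M + 1) < 1 := by
    rw [div_lt_one (by positivity)]
    linarith
  have b5 : (M * C) / (M * C + 1) < 1 := by
    rw [div_lt_one (by positivity)]
    linarith
  nlinarith

theorem dc (hSt : SSt) (hRe : SRe) : SDC := by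
  intro c r E1 E2 F1 F2 e1 e2 f1 f2 hs hd hb hw φ hφ
  have hB : IsOpen (Metric.ball c r) := Metric.isOpen_ball
  have hint : ∀ ψ, TF (Metric.ball c r) ψ → ∀ (g : ℂ → ℂ), ContDiffOn ℝ ∞ g (Metric.ball c r) →
      Integrable (fun z => (ψ z : ℂ) * g z) := fun ψ hψ g hg => int_of _ hB ψ hψ g hg.continuousOn
  have hconst : ∀ ψ, TF (Metric.ball c r) ψ → ∀ (a : ℂ) (g : ℂ → ℂ),
      ContDiffOn ℝ ∞ g (Metric.ball c r) →
      ∫ z, (ψ z : ℂ) * (g z - a) = (∫ z, (ψ z : ℂ) * g z) - a * (∫ z, ψ z : ℝ) := by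
    intro ψ hψ a g hg
    have i1 := hint ψ hψ g hg
    have i2 := hint ψ hψ (fun _ => a) contDiffOn_const
    have e0 : ∫ z, (ψ z : ℂ) * (g z - a) = ∫ z, ((ψ z : ℂ) * g z - (ψ z : ℂ) * a) :=
      integral_congr_ae (Filter.Eventually.of_forall fun z => mul_sub _ _ _)
    rw [e0, integral_sub i1 i2, integral_mul_const, ← integral_complex_ofReal, mul_comm a]
  have hz := zero hSt hRe c r E1 E2 (fun n z => F1 n z - f1) (fun n z => F2 n z - f2)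
    (fun n => ⟨(hs n).1, (hs n).2.1, (hs n).2.2.1.sub contDiffOn_const,
      (hs n).2.2.2.sub contDiffOn_const⟩) ?_ ?_ ?_ ?_ φ hφ
  · obtain ⟨w1, w2, w3, w4⟩ := hw φ hφ
    have hlim := (Filter.Tendsto.add hz ((w1.mul_const f2).sub (w2.mul_const f1)))
    have hl : (0 : ℂ) + (e1 * (∫ z, φ z : ℝ) * f2 - e2 * (∫ z, φ z : ℝ) * f1) =
        (e1 * f2 - e2 * f1) * (∫ z, φ z : ℝ) := by ring
    rw [hl] at hlim
    refine Filter.Tendsto.congr (fun n => ?_) hlim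
    have i0 := hint φ hφ (fun z => E1 n z * (F2 n z - f2) - E2 n z * (F1 n z - f1))
      (((hs n).1.mul ((hs n).2.2.2.sub contDiffOn_const)).sub
        ((hs n).2.1.mul ((hs n).2.2.1.sub contDiffOn_const)))
    have i1 := (hint φ hφ _ (hs n).1).mul_const f2
    have i2 := (hint φ hφ _ (hs n).2.1).mul_const f1
    rw [← integral_mul_const, ← integral_mul_const, ← integral_sub i1 i2]
    have := integral_add i0 (i1.sub i2)
    refine Eq.trans this.symm ?_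
    refine integral_congr_ae (Filter.Eventually.of_forall fun z => ?_)
    show (φ z : ℂ) * (E1 n z * (F2 n z - f2) - E2 n z * (F1 n z - f1)) +
      ((φ z : ℂ) * E1 n z * f2 - (φ z : ℂ) * E2 n z * f1) = _
    ring
  · intro n z hz
    refine ⟨(hd n z hz).1, ?_⟩
    have h1 : dx (fun z => F1 n z - f1) z = dx (F1 n) z := by
      unfold dx
      rw [fderiv_sub_const]
    have h2 : dy (fun z => F2 n z - f2) z = dy (F2 n) z := by
      unfold dy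
      rw [fderiv_sub_const]
    rw [h1, h2]
    exact (hd n z hz).2
  · intro K hK hKB
    obtain ⟨C, hC⟩ := hb K hK hKB
    refine ⟨C, hC.mono fun n hn => ?_⟩
    refine le_trans ?_ hn
    have cE : ContinuousOn (fun z => ‖E1 n z‖ ^ 2 + ‖E2 n z‖ ^ 2) K :=
      (((hs n).1.continuousOn.mono hKB).norm.pow 2).add
        (((hs n).2.1.continuousOn.mono hKB).norm.pow 2)
    have cA : ContinuousOn (fun z => ‖E1 n z‖ ^ 2 + ‖E2 n z‖ ^ 2 + ‖F1 n z‖ ^ 2 + ‖F2 n z‖ ^ 2) K :=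
      (cE.add (((hs n).2.2.1.continuousOn.mono hKB).norm.pow 2)).add
        (((hs n).2.2.2.continuousOn.mono hKB).norm.pow 2)
    refine setIntegral_mono_on (cE.integrableOn_compact hK) (cA.integrableOn_compact hK)
      hK.measurableSet fun z _ => ?_
    have := sq_nonneg ‖F1 n z‖
    have := sq_nonneg ‖F2 n z‖
    linarith
  · intro K hK hKB
    obtain ⟨C, hC⟩ := hb K hK hKB
    refine ⟨2 * C + (volume : Measure ℂ).real K * (2 * (‖f1‖ ^ 2 + ‖f2‖ ^ 2)),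
      hC.mono fun n hn => ?_⟩
    have cE : ContinuousOn (fun z => ‖E1 n z‖ ^ 2 + ‖E2 n z‖ ^ 2) K :=
      (((hs n).1.continuousOn.mono hKB).norm.pow 2).add
        (((hs n).2.1.continuousOn.mono hKB).norm.pow 2)
    have cA : ContinuousOn (fun z => ‖E1 n z‖ ^ 2 + ‖E2 n z‖ ^ 2 + ‖F1 n z‖ ^ 2 + ‖F2 n z‖ ^ 2) K :=
      (cE.add (((hs n).2.2.1.continuousOn.mono hKB).norm.pow 2)).add
        (((hs n).2.2.2.continuousOn.mono hKB).norm.pow 2)
    have cF : ContinuousOn (fun z => ‖F2 n z - f2‖ ^ 2 + ‖F1 n z - f1‖ ^ 2) K :=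
      ((((hs n).2.2.2.continuousOn.mono hKB).sub continuousOn_const).norm.pow 2).add
        ((((hs n).2.2.1.continuousOn.mono hKB).sub continuousOn_const).norm.pow 2)
    have iA := cA.integrableOn_compact (μ := (volume : Measure ℂ)) hK
    have iF := cF.integrableOn_compact (μ := (volume : Measure ℂ)) hK
    have iC : IntegrableOn (fun _ : ℂ => 2 * (‖f1‖ ^ 2 + ‖f2‖ ^ 2)) K :=
      (continuousOn_const).integrableOn_compact hK
    have e1 : ∫ z in K, (‖F2 n z - f2‖ ^ 2 + ‖F1 n z - f1‖ ^ 2) ≤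
        ∫ z in K, (2 * (‖E1 n z‖ ^ 2 + ‖E2 n z‖ ^ 2 + ‖F1 n z‖ ^ 2 + ‖F2 n z‖ ^ 2) +
          2 * (‖f1‖ ^ 2 + ‖f2‖ ^ 2)) := by
      refine setIntegral_mono_on iF ((iA.const_mul 2).add iC) hK.measurableSet fun z _ => ?_
      have h1 := norm_sub_le (F2 n z) f2
      have h2 := norm_sub_le (F1 n z) f1
      have h3 := norm_nonneg (F2 n z - f2)
      have h4 := norm_nonneg (F1 n z - f1)
      have h5 : ‖F2 n z - f2‖ ^ 2 ≤ 2 * (‖F2 n z‖ ^ 2 + ‖f2‖ ^ 2) := by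
        nlinarith [sq_nonneg (‖F2 n z‖ - ‖f2‖)]
      have h6 : ‖F1 n z - f1‖ ^ 2 ≤ 2 * (‖F1 n z‖ ^ 2 + ‖f1‖ ^ 2) := by
        nlinarith [sq_nonneg (‖F1 n z‖ - ‖f1‖)]
      have := sq_nonneg ‖E1 n z‖
      have := sq_nonneg ‖E2 n z‖
      linarith
    refine e1.trans ?_
    rw [integral_add (iA.const_mul 2) iC, integral_const_mul, setIntegral_const, smul_eq_mul]
    linarith
  · intro ψ hψ
    obtain ⟨_, _, w3, w4⟩ := hw ψ hψ
    constructor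
    · have := w3.sub_const (f1 * (∫ z, ψ z : ℝ))
      rw [sub_self] at this
      exact this.congr fun n => (hconst ψ hψ f1 _ (hs n).2.2.1).symm
    · have := w4.sub_const (f2 * (∫ z, ψ z : ℝ))
      rw [sub_self] at this
      exact this.congr fun n => (hconst ψ hψ f2 _ (hs n).2.2.2).symm

end Pool.Agent.W750.RW
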